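import Pool.Agent.helper6.Gap.Finite

/-!
# A lower bound for the maximum number of edges of 2-gap planar graphs

For every `n` there is a graph with `n` vertices and at least `(32 / 5) n - 58 √n` edges with a
straight-line drawing in which every edge is the tunnel at at most two crossings. The graphs are
pieces of a periodic drawing with five vertices and 32 edges per cell.
-/

namespace Pool.Agent.Results.MP_d13294_co.StraightSixPointFour

open Pool.Agent.helper6.Gap

theorem result (n : ℕ) : ∃ G : SimpleGraph (Fin n), StraightGapPlanar 2 G ∧
    (32 / 5 : ℝ) * n - 58 * Real.sqrt n ≤ G.edgeSet.ncard :=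
  exists_graph n

end Pool.Agent.Results.MP_d13294_co.StraightSixPointFour
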